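import Pool.Agent.H61.KW.TA

/-!
# Kuiper board KW, row FSF
-/

set_option autoImplicit false

open Set

namespace Pool.Agent.H90.KW.FSF

open Pool.Agent.H61.KV Pool.Agent.H61.KW

theorem pf_FSF : T_FSF := by
  classical
  intro α F h4 hI hx
  by_contra hfin
  have hinf : F.Infinite := hfin
  have h0 : {S | S ∈ F ∧ (∅ : Finset α) ⊆ S}.Infinite := by
    refine hinf.mono ?_
    intro S hS
    exact ⟨hS, Finset.empty_subset _⟩
  have hb : ∀ Y : Finset α, {S | S ∈ F ∧ Y ⊆ S}.Infinite → Y.card ≤ 3 := by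
    intro Y hY
    obtain ⟨S, hS, hYS⟩ := hY.nonempty
    have h1 : Y.card ≤ 4 := (Finset.card_le_card hYS).trans (h4 S hS).le
    by_contra h2
    have h3 : Y.card = 4 := by omega
    apply hY
    refine (Set.finite_singleton Y).subset ?_
    rintro T ⟨hT, hYT⟩
    have h5 : Y = T := Finset.eq_of_subset_of_card_le hYT (by rw [h4 T hT, h3])
    exact h5.symm
  obtain ⟨Y, hY, hmax⟩ : ∃ Y : Finset α, {S | S ∈ F ∧ Y ⊆ S}.Infinite ∧
      ∀ Z : Finset α, {S | S ∈ F ∧ Z ⊆ S}.Infinite → Z.card ≤ Y.card := by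
    have hP : ∃ n, ∃ Y : Finset α, {S | S ∈ F ∧ Y ⊆ S}.Infinite ∧ Y.card = n :=
      ⟨0, ∅, h0, Finset.card_empty⟩
    obtain ⟨n, hn, hn'⟩ : ∃ n, (∃ Y : Finset α, {S | S ∈ F ∧ Y ⊆ S}.Infinite ∧ Y.card = n) ∧
        ∀ m, (∃ Y : Finset α, {S | S ∈ F ∧ Y ⊆ S}.Infinite ∧ Y.card = m) → m ≤ n := by
      have hbdd : BddAbove {m | ∃ Y : Finset α, {S | S ∈ F ∧ Y ⊆ S}.Infinite ∧ Y.card = m} := by
        refine ⟨3, ?_⟩
        rintro m ⟨Y, hY, rfl⟩
        exact hb Y hY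
      exact ⟨_, Nat.sSup_mem hP hbdd, fun m hm => le_csSup hbdd hm⟩
    obtain ⟨Y, hY, rfl⟩ := hn
    exact ⟨Y, hY, fun Z hZ => hn' _ ⟨Z, hZ, rfl⟩⟩
  have hmeet : ∀ P ∈ F, ¬ Disjoint P Y := by
    intro P hP hd
    have h1 : {S | S ∈ F ∧ Y ⊆ S} ⊆ ⋃ x ∈ P, {S | S ∈ F ∧ insert x Y ⊆ S} := by
      rintro S ⟨hS, hYS⟩
      have h2 := hI S hS P hP
      rw [Finset.not_disjoint_iff] at h2
      obtain ⟨x, hxS, hxP⟩ := h2
      simp only [Set.mem_iUnion]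
      exact ⟨x, hxP, hS, Finset.insert_subset hxS hYS⟩
    have h3 : ∃ x ∈ P, {S | S ∈ F ∧ insert x Y ⊆ S}.Infinite := by
      by_contra h4
      push Not at h4
      apply hY
      refine Set.Finite.subset ?_ h1
      exact P.finite_toSet.biUnion (fun x hx => h4 x hx)
    obtain ⟨x, hxP, hxinf⟩ := h3
    have h5 := hmax _ hxinf
    have h6 : x ∉ Y := Finset.disjoint_left.1 hd hxP
    rw [Finset.card_insert_of_notMem h6] at h5
    omega
  obtain ⟨S, hS, hYS⟩ := hY.nonempty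
  have h1 : ∃ x ∈ S, x ∉ Y := by
    by_contra h2
    push Not at h2
    have h3 := Finset.card_le_card (fun x hx => h2 x hx : S ⊆ Y)
    have h5 := hb Y hY
    rw [h4 S hS] at h3
    omega
  obtain ⟨x, hxS, hxY⟩ := h1
  obtain ⟨P, hP, hPx⟩ := hx S hS x hxS
  have h2 := hmeet P hP
  rw [Finset.not_disjoint_iff] at h2
  obtain ⟨y, hyP, hyY⟩ := h2
  have h3 := hPx y (hYS hyY) hyP
  rw [h3] at hyY
  exact hxY hyY

end Pool.Agent.H90.KW.FSF
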