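import Pool.Agent.H61.KW.TA

/-!
# Kuiper board KW, row SH1
-/

set_option autoImplicit false

open Set

namespace Pool.Agent.H90.KW.SH1

open Pool.Agent.H61.KV Pool.Agent.H61.KW

theorem pf_SH1 (h2 : T_SHC) (h3 : T_THN) (h4 : T_SHS) : T_SH1 := by
  intro V _ _ _ C q b hB hrk
  have hbC : b ∈ C := mem_C hB.hb
  have hbE : Ex C b := ex_of_rk1 hB.cc hbC hrk
  by_cases H : ∀ W : Submodule ℝ V, Module.finrank ℝ W ≤ 3 →
      ∃ x, Ex C x ∧ x ∈ Fc C q ∧ b ∉ Fc C x ∧ x ∉ W
  · left
    have hpair := h2 V C q b hB hbE H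
    have hsel : ∀ n : ℕ, n ≤ 4 → ∃ x : Fin n → V, LinearIndependent ℝ x ∧
        ∀ i, Ex C (x i) ∧ x i ∈ Fc C q ∧ b ∉ Fc C (x i) := by
      intro n
      induction n with
      | zero =>
        intro _
        exact ⟨fun i => i.elim0, linearIndependent_empty_type, fun i => i.elim0⟩
      | succ n ih =>
        intro hn
        obtain ⟨x, hx, hx'⟩ := ih (by omega)
        have hW : Module.finrank ℝ (Submodule.span ℝ (Set.range x)) ≤ 3 := by
          rw [finrank_span_eq_card hx, Fintype.card_fin]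
          omega
        obtain ⟨y, hy1, hy2, hy3, hy4⟩ := H _ hW
        refine ⟨Fin.cons y x, linearIndependent_finCons.2 ⟨hx, hy4⟩, ?_⟩
        intro i
        refine Fin.cases ?_ ?_ i
        · exact ⟨by simpa using hy1, by simpa using hy2, by simpa using hy3⟩
        · intro j
          simpa using hx' j
    obtain ⟨x, hx, hx'⟩ := hsel 4 le_rfl
    have hne : ∀ i j, i ≠ j → x j ∉ Fc C (x i) := by
      intro i j hij hmem
      obtain ⟨c, hc, he⟩ := ex_par hB.cc (hx' i).1 (hx' j).1 hmem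
      have h5 : x j ∉ Submodule.span ℝ (x '' {i}) :=
        hx.notMem_span_image (fun h => hij (Set.mem_singleton_iff.1 h).symm)
      apply h5
      rw [he, Set.image_singleton]
      exact Submodule.smul_mem _ _ (Submodule.mem_span_singleton_self _)
    have h5 : ∀ i j k, i ≠ j → q ∉ Fc C (x i + x j + x k) := by
      intro i j k hij
      obtain ⟨h6, h7⟩ := hpair (x i) (x j) (hx' i).1 (hx' j).1 (hx' i).2.1 (hx' j).2.1
        (hx' i).2.2 (hx' j).2.2 (hne i j hij)
      exact hB.ii2 _ _ h7 (hx' k).1 (add_fc hB.cc hB.hq (hx' i).2.1 (hx' j).2.1) (hx' k).2.1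
        h6 (hx' k).2.2
    refine ⟨x, h3 V C q 4 x hB.cc hB.hq hB.rk4 hx (fun i => (hx' i).1) (fun i => (hx' i).2.1) ?_⟩
    intro i
    have h6 : ∃ a b c : Fin 4, a ≠ b ∧ a ≠ c ∧ b ≠ c ∧ Finset.univ.erase i = {a, b, c} := by
      revert i
      decide
    obtain ⟨a, b', c, h7, h8, h9, h10⟩ := h6
    rw [h10, Finset.sum_insert (by simp [h7, h8]), Finset.sum_insert (by simp [h9]),
      Finset.sum_singleton, ← add_assoc]
    exact h5 a b' c h7
  · right
    push Not at H
    obtain ⟨W, hW, hW'⟩ := H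
    refine h4 V C q b W hB.cc hB.hq hB.rk4 hbE hB.hb hW ?_
    intro x hx hxq
    by_cases hbx : b ∈ Fc C x
    · left
      exact ex_symm hB.cc hx hbE hbx
    · right
      exact hW' x hx hxq hbx

end Pool.Agent.H90.KW.SH1
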